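import Mathlib

set_option autoImplicit false

namespace Pool.Agent.H.MP_7ca032_co

open Module

abbrev E (d : ℕ) := EuclideanSpace ℝ (Fin d)

lemma exposed_of_nonneg {d : ℕ} (P : Set (E d)) (L : E d →L[ℝ] ℝ) (c : ℝ)
    (h : ∀ x ∈ P, 0 ≤ c + L x) : IsExposed ℝ P {x ∈ P | c + L x = 0} := by
  rintro ⟨x0, hx0, h0⟩
  refine ⟨-L, ?_⟩
  ext x
  simp only [Set.mem_ofPred_eq, neg_apply]
  constructor
  · rintro ⟨hx, h1⟩
    exact ⟨hx, fun y hy => by linarith [h y hy]⟩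
  · rintro ⟨hx, h1⟩
    exact ⟨hx, by linarith [h1 x0 hx0, h x hx]⟩

lemma skew {d : ℕ} (P1 P2 : Set (E d)) (h1 : P1.Nonempty) (h2 : P2.Nonempty)
    (hd : finrank ℝ (vectorSpan ℝ (P1 ∪ P2)) =
      finrank ℝ (vectorSpan ℝ P1) + finrank ℝ (vectorSpan ℝ P2) + 1)
    (f : E d →L[ℝ] ℝ) (c : ℝ) :
    ∃ (g : E d →L[ℝ] ℝ) (c' : ℝ), (∀ x ∈ P1, c' + g x = c + f x) ∧ (∀ x ∈ P2, c' + g x = 0) := by
  obtain ⟨p1, hp1⟩ := h1
  obtain ⟨p2, hp2⟩ := h2
  let D1 := vectorSpan ℝ P1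
  let D2 := vectorSpan ℝ P2
  let Φ : (D1 × D2 × ℝ) →ₗ[ℝ] E d :=
    D1.subtype.coprod (D2.subtype.coprod (LinearMap.toSpanSingleton ℝ (E d) (p2 - p1)))
  have hΦ : ∀ (a : D1) (b : D2) (t : ℝ), Φ (a, b, t) = a + (b + t • (p2 - p1)) := by
    intro a b t; simp [Φ]
  have m1 : ∀ x ∈ P1, x - p1 ∈ D1 := fun x hx => vsub_mem_vectorSpan ℝ hx hp1
  have m2 : ∀ x ∈ P2, x - p2 ∈ D2 := fun x hx => vsub_mem_vectorSpan ℝ hx hp2
  have hr : vectorSpan ℝ (P1 ∪ P2) ≤ LinearMap.range Φ := by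
    rw [vectorSpan_eq_span_vsub_set_right ℝ (Set.mem_union_left P2 hp1), Submodule.span_le]
    rintro _ ⟨x, hx | hx, rfl⟩
    · exact ⟨(⟨x - p1, m1 x hx⟩, 0, 0), by simp [hΦ]⟩
    · exact ⟨(0, ⟨x - p2, m2 x hx⟩, 1), by simp [hΦ]⟩
  have hker : LinearMap.ker Φ = ⊥ := by
    have e1 := LinearMap.finrank_range_add_finrank_ker Φ
    have e2 := Submodule.finrank_mono hr
    have e3 : finrank ℝ (D1 × D2 × ℝ) = finrank ℝ D1 + finrank ℝ D2 + 1 := by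
      simp [Module.finrank_prod, add_assoc]
    have e4 : finrank ℝ (LinearMap.ker Φ) = 0 := by
      have : finrank ℝ (vectorSpan ℝ (P1 ∪ P2)) = finrank ℝ D1 + finrank ℝ D2 + 1 := hd
      omega
    exact Submodule.finrank_eq_zero.mp e4
  obtain ⟨Ψ, hΨ⟩ := Φ.exists_leftInverse_of_injective hker
  have hΨ' : ∀ z, Ψ (Φ z) = z := fun z => by
    have := LinearMap.congr_fun hΨ z
    simpa using this
  let T : (D1 × D2 × ℝ) →ₗ[ℝ] ℝ :=
    ((f : E d →ₗ[ℝ] ℝ).comp D1.subtype).coprod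
      ((0 : D2 →ₗ[ℝ] ℝ).coprod (LinearMap.toSpanSingleton ℝ ℝ (-(c + f p1))))
  have hT : ∀ (a : D1) (b : D2) (t : ℝ), T (a, b, t) = f a - t * (c + f p1) := by
    intro a b t; simp [T]; ring
  let L : E d →ₗ[ℝ] ℝ := T.comp Ψ
  have hL : ∀ (a : D1) (b : D2) (t : ℝ),
      L (a + (b + t • (p2 - p1))) = f a - t * (c + f p1) := by
    intro a b t
    rw [← hΦ, ← hT a b t]
    simp only [L, LinearMap.comp_apply, hΨ']
  refine ⟨LinearMap.toContinuousLinearMap L, -L p2, ?_, ?_⟩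
  · intro x hx
    have := hL ⟨x - p1, m1 x hx⟩ 0 (-1)
    simp only [ZeroMemClass.coe_zero, zero_add, neg_smul, one_smul, neg_sub,
      sub_add_sub_cancel, map_sub] at this
    simp only [LinearMap.coe_toContinuousLinearMap']
    linarith
  · intro x hx
    have := hL 0 ⟨x - p2, m2 x hx⟩ 0
    simp only [ZeroMemClass.coe_zero, zero_add, zero_smul, add_zero, map_sub, map_zero,
      zero_mul, sub_zero] at this
    simp only [LinearMap.coe_toContinuousLinearMap']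
    linarith

lemma join_one {d : ℕ} (P1 P2 : Set (E d)) (c1 : Convex ℝ P1) (c2 : Convex ℝ P2)
    (h1 : P1.Nonempty) (h2 : P2.Nonempty)
    (hd : finrank ℝ (vectorSpan ℝ (P1 ∪ P2)) =
      finrank ℝ (vectorSpan ℝ P1) + finrank ℝ (vectorSpan ℝ P2) + 1) :
    IsExposed ℝ (convexHull ℝ (P1 ∪ P2)) P2 ∧ (∀ x ∈ P1, x ∉ P2) := by
  obtain ⟨g, c', e1, e2⟩ := skew P1 P2 h1 h2 hd 0 1
  simp only [zero_apply, add_zero] at e1
  have key : ∀ x ∈ convexHull ℝ (P1 ∪ P2), 0 ≤ c' + g x ∧ (c' + g x = 0 → x ∈ P2) := by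
    intro x hx
    rw [c1.convexHull_union c2 h1 h2, mem_convexJoin] at hx
    obtain ⟨p, hp, q, hq, a, b, ha, hb, hab, rfl⟩ := hx
    have : c' + g (a • p + b • q) = a := by
      simp only [map_add, map_smul, smul_eq_mul]
      linear_combination a * e1 p hp + b * e2 q hq - c' * hab
    rw [this]
    refine ⟨ha, fun h0 => ?_⟩
    have hb1 : b = 1 := by linarith
    simpa [h0, hb1] using hq
  constructor
  · have := exposed_of_nonneg _ g c' (fun x hx => (key x hx).1)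
    convert this using 1
    ext x
    exact ⟨fun hx => ⟨subset_convexHull ℝ _ (Or.inr hx), e2 x hx⟩, fun hx => (key x hx.1).2 hx.2⟩
  · intro x hx hx'
    linarith [e1 x hx, e2 x hx']

/-- A point of a face lying on a segment between points of the body. -/
lemma face_seg {d : ℕ} {J G : Set (E d)} (hG : IsExposed ℝ J G) {p q : E d} (hp : p ∈ J)
    (hq : q ∈ J) {a b : ℝ} (ha : 0 < a) (hb : 0 ≤ b) (hab : a + b = 1)
    (hx : a • p + b • q ∈ G) : p ∈ G := by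
  obtain ⟨l, rfl⟩ := hG ⟨_, hx⟩
  obtain ⟨hx1, hx2⟩ := hx
  refine ⟨hp, fun y hy => ?_⟩
  have a1 := hx2 y hy
  have a2 := hx2 q hq
  simp only [map_add, map_smul, smul_eq_mul] at a1 a2
  have a3 : l q ≤ l p := by
    by_contra hc
    have : a * l p < a * l q := mul_lt_mul_of_pos_left (not_le.mp hc) ha
    have e : l q = a * l q + b * l q := by rw [← add_mul, hab, one_mul]
    linarith
  have e : l p = a * l p + b * l p := by rw [← add_mul, hab, one_mul]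
  have : b * l q ≤ b * l p := mul_le_mul_of_nonneg_left a3 hb
  linarith

lemma join_struct {d : ℕ} (P1 P2 : Set (E d)) (c1 : Convex ℝ P1) (c2 : Convex ℝ P2)
    (h1 : P1.Nonempty) (h2 : P2.Nonempty)
    (hd : finrank ℝ (vectorSpan ℝ (P1 ∪ P2)) =
      finrank ℝ (vectorSpan ℝ P1) + finrank ℝ (vectorSpan ℝ P2) + 1) :
    IsExposed ℝ (convexHull ℝ (P1 ∪ P2)) P1 ∧ IsExposed ℝ (convexHull ℝ (P1 ∪ P2)) P2 ∧
    (∀ x ∈ P1, x ∉ P2) ∧
    (∀ G, IsExposed ℝ (convexHull ℝ (P1 ∪ P2)) G → G.Nonempty →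
      (G ∩ P1).Nonempty ∨ (G ∩ P2).Nonempty) ∧
    (∀ G, IsExposed ℝ (convexHull ℝ (P1 ∪ P2)) G →
      (∀ G', IsExposed ℝ (convexHull ℝ (P1 ∪ P2)) G' → G ⊆ G' →
        G' = G ∨ G' = convexHull ℝ (P1 ∪ P2)) → P1 ⊆ G ∨ P2 ⊆ G) := by
  obtain ⟨x2, dj⟩ := join_one P1 P2 c1 c2 h1 h2 hd
  obtain ⟨x1, -⟩ := join_one P2 P1 c2 c1 h2 h1 (by rw [Set.union_comm, hd]; ring)
  rw [Set.union_comm] at x1
  have s1 : P1 ⊆ convexHull ℝ (P1 ∪ P2) := fun x hx => subset_convexHull ℝ _ (Or.inl hx)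
  have s2 : P2 ⊆ convexHull ℝ (P1 ∪ P2) := fun x hx => subset_convexHull ℝ _ (Or.inr hx)
  have dec : ∀ x ∈ convexHull ℝ (P1 ∪ P2), ∃ p ∈ P1, ∃ q ∈ P2, ∃ a b : ℝ, 0 ≤ a ∧ 0 ≤ b ∧
      a + b = 1 ∧ a • p + b • q = x := by
    intro x hx
    rw [c1.convexHull_union c2 h1 h2, mem_convexJoin] at hx
    exact hx
  refine ⟨x1, x2, dj, ?_, ?_⟩
  · rintro G hG ⟨x, hx⟩
    obtain ⟨p, hp, q, hq, a, b, ha, hb, hab, rfl⟩ := dec x (hG.subset hx)
    rcases ha.eq_or_lt with h0 | h0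
    · right
      have hb1 : b = 1 := by linarith
      exact ⟨q, by simpa [← h0, hb1] using hx, hq⟩
    · left
      exact ⟨p, face_seg hG (s1 hp) (s2 hq) h0 hb hab hx, hp⟩
  · intro G hG hmax
    rcases G.eq_empty_or_nonempty with h0 | hne
    · rcases hmax P2 x2 (by simp [h0]) with h | h
      · exact Or.inr h.subset
      · obtain ⟨p, hp⟩ := h1
        exact absurd (h ▸ s1 hp) (dj p hp)
    obtain ⟨x0, hx0⟩ := hne
    obtain ⟨l, hl⟩ := hG ⟨x0, hx0⟩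
    have hmem : ∀ x, x ∈ G ↔ x ∈ convexHull ℝ (P1 ∪ P2) ∧
        ∀ y ∈ convexHull ℝ (P1 ∪ P2), l y ≤ l x := fun x => by rw [hl]; rfl
    obtain ⟨g, c', e1, e2⟩ := skew P1 P2 h1 h2 hd (-l) (l x0)
    simp only [neg_apply] at e1
    have val : ∀ p ∈ P1, ∀ q ∈ P2, ∀ a b : ℝ, a + b = 1 →
        c' + g (a • p + b • q) = a * (l x0 - l p) := by
      intro p hp q hq a b hab
      simp only [map_add, map_smul, smul_eq_mul]
      linear_combination a * e1 p hp + b * e2 q hq - c' * hab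
    have hmax0 := ((hmem x0).mp hx0).2
    have nn : ∀ x ∈ convexHull ℝ (P1 ∪ P2), 0 ≤ c' + g x := by
      intro x hx
      obtain ⟨p, hp, q, hq, a, b, ha, hb, hab, rfl⟩ := dec x hx
      rw [val p hp q hq a b hab]
      exact mul_nonneg ha (by linarith [hmax0 p (s1 hp)])
    have hsub : G ⊆ {x ∈ convexHull ℝ (P1 ∪ P2) | c' + g x = 0} := by
      intro x hx
      refine ⟨hG.subset hx, ?_⟩
      obtain ⟨p, hp, q, hq, a, b, ha, hb, hab, rfl⟩ := dec x (hG.subset hx)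
      rw [val p hp q hq a b hab]
      rcases ha.eq_or_lt with h0 | h0
      · rw [← h0, zero_mul]
      · have hpG := face_seg hG (s1 hp) (s2 hq) h0 hb hab hx
        have a1 := ((hmem p).mp hpG).2 x0 (hG.subset hx0)
        have a2 := hmax0 p (s1 hp)
        rw [le_antisymm a1 a2, sub_self, mul_zero]
    rcases hmax _ (exposed_of_nonneg _ g c' nn) hsub with h | h
    · right
      intro q hq
      rw [← h]
      exact ⟨s2 hq, e2 q hq⟩
    · left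
      intro p hp
      have : p ∈ {x ∈ convexHull ℝ (P1 ∪ P2) | c' + g x = 0} := by rw [h]; exact s1 hp
      have a1 : l p = l x0 := by linarith [this.2, e1 p hp]
      exact (hmem p).mpr ⟨s1 hp, fun y hy => a1 ▸ hmax0 y hy⟩

/-- Transfer of the join structure along an isomorphism of face lattices. -/
lemma transfer {d e : ℕ} (P : Set (E d)) (P1 P2 : Set (E e)) (c1 : Convex ℝ P1) (c2 : Convex ℝ P2)
    (h1 : P1.Nonempty) (h2 : P2.Nonempty)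
    (hd : finrank ℝ (vectorSpan ℝ (P1 ∪ P2)) =
      finrank ℝ (vectorSpan ℝ P1) + finrank ℝ (vectorSpan ℝ P2) + 1)
    (φ : {F : Set (E d) // IsExposed ℝ P F} ≃o
      {F : Set (E e) // IsExposed ℝ (convexHull ℝ (P1 ∪ P2)) F}) :
    ∃ A B : Set (E d), IsExposed ℝ P A ∧ IsExposed ℝ P B ∧ A.Nonempty ∧ B.Nonempty ∧
      (∀ v, IsExposed ℝ P {v} → (v ∈ A ↔ v ∉ B)) ∧
      (∀ F, IsExposed ℝ P F → (∀ F', IsExposed ℝ P F' → F ⊆ F' → F' = F ∨ F' = P) →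
        A ⊆ F ∨ B ⊆ F) := by
  obtain ⟨x1, x2, dj, atom, coatom⟩ := join_struct P1 P2 c1 c2 h1 h2 hd
  set J := convexHull ℝ (P1 ∪ P2) with hJ
  have ne1 : ∀ X, X.1.Nonempty → (φ X).1.Nonempty := by
    intro X hX
    by_contra hc
    have : φ X ≤ φ ⟨∅, isExposed_empty⟩ := by
      intro y hy; exact absurd ⟨y, hy⟩ hc
    obtain ⟨y, hy⟩ := hX
    exact φ.le_iff_le.mp this hy
  have ne2 : ∀ Y, Y.1.Nonempty → (φ.symm Y).1.Nonempty := by
    intro Y hY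
    by_contra hc
    have : φ.symm Y ≤ φ.symm ⟨∅, isExposed_empty⟩ := by
      intro y hy; exact absurd ⟨y, hy⟩ hc
    obtain ⟨y, hy⟩ := hY
    exact φ.symm.le_iff_le.mp this hy
  have one : ∀ (v : E d) (hv : IsExposed ℝ P {v}) (Q : Set (E e)) (hQ : IsExposed ℝ J Q),
      ((φ ⟨{v}, hv⟩).1 ∩ Q).Nonempty → v ∈ (φ.symm ⟨Q, hQ⟩).1 := by
    intro v hv Q hQ hne
    let G' : {F : Set (E e) // IsExposed ℝ J F} :=
      ⟨(φ ⟨{v}, hv⟩).1 ∩ Q, (φ ⟨{v}, hv⟩).2.inter hQ⟩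
    obtain ⟨y, hy⟩ := ne2 G' hne
    have l1 : φ.symm G' ≤ ⟨{v}, hv⟩ := φ.symm_apply_le.mpr Set.inter_subset_left
    have l2 : φ.symm G' ≤ φ.symm ⟨Q, hQ⟩ := φ.symm.le_iff_le.mpr Set.inter_subset_right
    have : y = v := l1 hy
    exact this ▸ l2 hy
  refine ⟨(φ.symm ⟨P1, x1⟩).1, (φ.symm ⟨P2, x2⟩).1, (φ.symm _).2, (φ.symm _).2, ne2 _ h1,
    ne2 _ h2, ?_, ?_⟩
  · intro v hv
    obtain ⟨y, hy⟩ := ne1 ⟨{v}, hv⟩ ⟨v, rfl⟩
    constructor
    · intro a b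
      have l1 : φ ⟨{v}, hv⟩ ≤ ⟨P1, x1⟩ :=
        φ.le_symm_apply.mp (Set.singleton_subset_iff.mpr a)
      have l2 : φ ⟨{v}, hv⟩ ≤ ⟨P2, x2⟩ :=
        φ.le_symm_apply.mp (Set.singleton_subset_iff.mpr b)
      exact dj y (l1 hy) (l2 hy)
    · intro b
      rcases atom _ (φ ⟨{v}, hv⟩).2 ⟨y, hy⟩ with h | h
      · exact one v hv P1 x1 h
      · exact absurd (one v hv P2 x2 h) b
  · intro F hF hmax
    have : P1 ⊆ (φ ⟨F, hF⟩).1 ∨ P2 ⊆ (φ ⟨F, hF⟩).1 := by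
      refine coatom _ (φ ⟨F, hF⟩).2 fun G' hG' hle => ?_
      have l1 : (⟨F, hF⟩ : {F : Set (E d) // IsExposed ℝ P F}) ≤ φ.symm ⟨G', hG'⟩ :=
        φ.le_symm_apply.mpr hle
      rcases hmax _ (φ.symm ⟨G', hG'⟩).2 l1 with h | h
      · left
        have : φ.symm ⟨G', hG'⟩ = ⟨F, hF⟩ := Subtype.ext h
        rw [← this]; simp
      · right
        refine Set.Subset.antisymm hG'.subset ?_
        have : φ.symm ⟨J, IsExposed.refl J⟩ ≤ φ.symm ⟨G', hG'⟩ := by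
          intro y hy
          rw [h]; exact (φ.symm ⟨J, IsExposed.refl J⟩).2.subset hy
        exact φ.symm.le_iff_le.mp this
    rcases this with h | h
    · left
      have : φ.symm ⟨P1, x1⟩ ≤ ⟨F, hF⟩ := φ.symm_apply_le.mpr h
      exact this
    · right
      have : φ.symm ⟨P2, x2⟩ ≤ ⟨F, hF⟩ := φ.symm_apply_le.mpr h
      exact this

end Pool.Agent.H.MP_7ca032_co
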