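import Mathlib
import Pool.Agent.H.MP_7ca032_co.Join

set_option autoImplicit false

namespace Pool.Agent.H.MP_7ca032_co

open Module Filter Topology

def Vz : Fin 17 → Fin 7 → ℤ :=
  ![![1,0,0,0,0,0,0], ![1,1,0,0,0,0,0], ![0,1,0,0,0,0,0], ![-1,0,0,0,0,0,0], ![-1,-1,0,0,0,0,0],
    ![0,-1,0,0,0,0,0], ![1,0,1,0,0,0,0], ![1,1,1,0,0,0,0], ![0,1,1,0,0,0,0], ![-1,0,1,0,0,0,0],
    ![-1,-1,1,0,0,0,0], ![0,-1,1,0,0,0,0], ![0,0,0,1,0,0,0], ![0,0,0,0,1,0,0], ![0,0,0,0,0,1,0],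
    ![0,0,1,1,1,1,-2], ![0,0,0,0,0,0,1]]

def Az : Fin 17 → Fin 7 → ℤ :=
  ![![0,0,0,1,0,0,0], ![0,0,0,0,1,0,0], ![0,0,0,0,0,1,0], ![0,0,0,2,0,0,1], ![0,0,0,0,2,0,1],
    ![0,0,0,0,0,2,1], ![0,0,-1,0,-1,-1,-1], ![0,0,-1,-1,0,-1,-1], ![0,0,-1,-1,-1,0,-1],
    ![0,0,1,0,0,0,0], ![0,0,2,0,0,0,1], ![1,0,0,-1,-1,-1,-1], ![-1,0,0,-1,-1,-1,-1],
    ![0,1,0,-1,-1,-1,-1], ![0,-1,0,-1,-1,-1,-1], ![1,-1,0,-1,-1,-1,-1], ![-1,1,0,-1,-1,-1,-1]]

def cz : Fin 17 → ℤ := ![0,0,0,0,0,0,1,1,1,0,0,1,1,1,1,1,1]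

def val (i k : Fin 17) : ℤ := cz i + ∑ j, Az i j * Vz k j

lemma val_nonneg : ∀ i k, 0 ≤ val i k := by decide +kernel
lemma val_anti : ∀ i i', i ≠ i' → ∃ k, val i k = 0 ∧ val i' k ≠ 0 := by decide +kernel
lemma val_sep : ∀ k k', k ≠ k' → ∃ i, val i k = 0 ∧ val i k' ≠ 0 := by decide +kernel
lemma val_ne : ∀ i, ∃ k, val i k ≠ 0 := by decide +kernel
lemma val_low : ∀ i k : Fin 17, i.val < 6 → k.val < 12 → val i k = 0 := by decide +kernel
lemma val_miss : ∀ i : Fin 17, i.val < 6 → ∃ k0 k1 : Fin 17, (k1 = 15 ∨ k1 = 16) ∧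
    ∀ k, k ≠ k0 → k ≠ k1 → val i k = 0 := by decide +kernel
lemma val_conn : ∀ j : Fin 17, ∃ m : Fin 17, (∃ i, val i 0 ≠ 0 ∧ val i m ≠ 0) ∧
    (∃ i, val i m ≠ 0 ∧ val i j ≠ 0) := by decide +kernel

noncomputable def V (k : Fin 17) : E 7 := WithLp.toLp 2 fun j => (Vz k j : ℝ)

noncomputable def lin (i : Fin 17) : E 7 →L[ℝ] ℝ :=
  ∑ j, (Az i j : ℝ) • (EuclideanSpace.proj j : E 7 →L[ℝ] ℝ)

lemma lin_apply (i : Fin 17) (x : E 7) : lin i x = ∑ j, (Az i j : ℝ) * x j := by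
  simp [lin]

lemma g_V (i k : Fin 17) : (cz i : ℝ) + lin i (V k) = val i k := by
  simp [lin_apply, V, val]

def PP : Set (E 7) := convexHull ℝ (Set.range V)

lemma V_mem (k : Fin 17) : V k ∈ PP := subset_convexHull ℝ _ ⟨k, rfl⟩

lemma convex_PP : Convex ℝ PP := convex_convexHull ℝ _

lemma weights {x : E 7} (hx : x ∈ PP) :
    ∃ w : Fin 17 → ℝ, (∀ k, 0 ≤ w k) ∧ ∑ k, w k = 1 ∧ ∑ k, w k • V k = x := by
  refine convexHull_min (s := Set.range V)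
    (t := {x | ∃ w : Fin 17 → ℝ, (∀ k, 0 ≤ w k) ∧ ∑ k, w k = 1 ∧ ∑ k, w k • V k = x}) ?_ ?_ hx
  · rintro _ ⟨k, rfl⟩
    refine ⟨Pi.single k 1, fun j => ?_, by simp, ?_⟩
    · by_cases h : j = k <;> simp [Pi.single_apply, h]
    · simp [Pi.single_apply, ite_smul]
  · rintro _ ⟨w, h0, h1, rfl⟩ _ ⟨w', h0', h1', rfl⟩ a b ha hb hab
    refine ⟨fun k => a * w k + b * w' k,
      fun k => add_nonneg (mul_nonneg ha (h0 k)) (mul_nonneg hb (h0' k)), ?_, ?_⟩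
    · rw [Finset.sum_add_distrib, ← Finset.mul_sum, ← Finset.mul_sum, h1, h1']; linarith
    · simp only [add_smul, mul_smul, Finset.sum_add_distrib, Finset.smul_sum]

lemma g_nonneg (i : Fin 17) {x : E 7} (hx : x ∈ PP) : 0 ≤ (cz i : ℝ) + lin i x := by
  obtain ⟨w, h0, h1, rfl⟩ := weights hx
  have : (cz i : ℝ) + lin i (∑ k, w k • V k) = ∑ k, w k * (cz i + lin i (V k)) := by
    simp only [map_sum, map_smul, smul_eq_mul, mul_add, Finset.sum_add_distrib,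
      ← Finset.sum_mul, h1, one_mul]
  rw [this]
  refine Finset.sum_nonneg fun k _ => mul_nonneg (h0 k) ?_
  rw [g_V]; exact_mod_cast val_nonneg i k

lemma vert_mem {Y : Set (E 7)} (hY : IsExposed ℝ PP Y) (w : Fin 17 → ℝ) (h0 : ∀ k, 0 ≤ w k)
    (h1 : ∑ k, w k = 1) (hx : ∑ k, w k • V k ∈ Y) (j : Fin 17) (hj : w j ≠ 0) : V j ∈ Y := by
  obtain ⟨l, rfl⟩ := hY ⟨_, hx⟩
  obtain ⟨hx1, hx2⟩ := hx
  set x := ∑ k, w k • V k with hxdef
  have e : ∑ k, w k * (l x - l (V k)) = 0 := by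
    simp only [mul_sub, Finset.sum_sub_distrib, ← Finset.sum_mul, h1, one_mul]
    rw [hxdef]; simp
  rw [Finset.sum_eq_zero_iff_of_nonneg
    (fun k _ => mul_nonneg (h0 k) (sub_nonneg.mpr (hx2 _ (V_mem k))))] at e
  have := (mul_eq_zero.mp (e j (Finset.mem_univ j))).resolve_left hj
  exact ⟨V_mem j, fun y hy => by linarith [hx2 y hy]⟩

lemma face_has_vertex {Y : Set (E 7)} (hY : IsExposed ℝ PP Y) (hne : Y.Nonempty) :
    ∃ k, V k ∈ Y := by
  obtain ⟨x, hx⟩ := hne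
  obtain ⟨w, h0, h1, rfl⟩ := weights (hY.subset hx)
  obtain ⟨k, -, hk⟩ := Finset.exists_ne_zero_of_sum_ne_zero (s := Finset.univ) (f := w)
    (by rw [h1]; exact one_ne_zero)
  exact ⟨k, vert_mem hY w h0 h1 hx k hk⟩

lemma hexw (ρ u v : ℝ) (h1 : 0 ≤ ρ + u) (h2 : 0 ≤ ρ - u) (h3 : 0 ≤ ρ + v) (h4 : 0 ≤ ρ - v)
    (h5 : 0 ≤ ρ + u - v) (h6 : 0 ≤ ρ - u + v) :
    ∃ c0 c1 c2 c3 c4 c5 : ℝ, 0 ≤ c0 ∧ 0 ≤ c1 ∧ 0 ≤ c2 ∧ 0 ≤ c3 ∧ 0 ≤ c4 ∧ 0 ≤ c5 ∧
      c0 + c1 + c2 + c3 + c4 + c5 = ρ ∧ c0 + c1 - c3 - c4 = u ∧ c1 + c2 - c4 - c5 = v := by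
  rcases le_total 0 v with hv | hv
  · rcases le_total 0 u with hu | hu
    · rcases le_total u v with h | h
      · refine ⟨(ρ - v) / 2, u, v - u, (ρ - v) / 2, 0, 0, ?_, ?_, ?_, ?_, ?_, ?_, ?_, ?_, ?_⟩ <;>
          linarith
      · refine ⟨(ρ - u) / 2 + (u - v), v, 0, (ρ - u) / 2, 0, 0,
          ?_, ?_, ?_, ?_, ?_, ?_, ?_, ?_, ?_⟩ <;> linarith
    · refine ⟨(ρ + u - v) / 2, 0, v, (ρ + u - v) / 2 - u, 0, 0,
        ?_, ?_, ?_, ?_, ?_, ?_, ?_, ?_, ?_⟩ <;> linarith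
  · rcases le_total 0 u with hu | hu
    · refine ⟨(ρ - u + v) / 2 + u, 0, 0, (ρ - u + v) / 2, 0, -v,
        ?_, ?_, ?_, ?_, ?_, ?_, ?_, ?_, ?_⟩ <;> linarith
    · rcases le_total u v with h | h
      · refine ⟨(ρ + u) / 2, 0, 0, (ρ + u) / 2 + (v - u), -v, 0,
          ?_, ?_, ?_, ?_, ?_, ?_, ?_, ?_, ?_⟩ <;> linarith
      · refine ⟨(ρ + v) / 2, 0, 0, (ρ + v) / 2, -u, u - v,
          ?_, ?_, ?_, ?_, ?_, ?_, ?_, ?_, ?_⟩ <;> linarith

lemma mem_PP {x : E 7} (h : ∀ i, 0 ≤ (cz i : ℝ) + lin i x) : x ∈ PP := by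
  have h' : ∀ i, 0 ≤ (cz i : ℝ) + (Az i 0 * x 0 + Az i 1 * x 1 + Az i 2 * x 2 + Az i 3 * x 3 +
      Az i 4 * x 4 + Az i 5 * x 5 + Az i 6 * x 6) := fun i => by
    have := h i
    rw [lin_apply, Fin.sum_univ_seven] at this
    exact this
  have g0 : 0 ≤ x 3 := by simpa [cz, Az] using h' 0
  have g1 : 0 ≤ x 4 := by simpa [cz, Az] using h' 1
  have g2 : 0 ≤ x 5 := by simpa [cz, Az] using h' 2
  have g3 := h' 3
  have g4 := h' 4
  have g5 := h' 5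
  have g6 := h' 6
  have g7 := h' 7
  have g8 := h' 8
  have g9 := h' 9
  have g10 := h' 10
  have g11 := h' 11
  have g12 := h' 12
  have g13 := h' 13
  have g14 := h' 14
  have g15 := h' 15
  have g16 := h' 16
  simp [cz, Az, -le_add_neg_iff_add_le, -add_neg_le_iff_le_add,
    -le_neg_add_iff_add_le] at g3 g4 g5 g6 g7 g8 g9 g10 g11 g12 g13 g14 g15 g16
  set ρ := 1 - x 3 - x 4 - x 5 - x 6 with hρ
  obtain ⟨c0, c1, c2, c3, c4, c5, p0, p1, p2, p3, p4, p5, q0, q1, q2⟩ :=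
    hexw ρ (x 0) (x 1) (by linarith) (by linarith) (by linarith) (by linarith) (by linarith)
      (by linarith)
  have hρ0 : 0 ≤ ρ := by linarith
  obtain ⟨t, t0, t1, t2, t3, t4, t5, t6⟩ : ∃ t : ℝ, 0 ≤ t ∧ -x 6 / 2 ≤ t ∧ x 2 - ρ ≤ t ∧
      t ≤ x 3 ∧ t ≤ x 4 ∧ t ≤ x 5 ∧ t ≤ x 2 := by
    refine ⟨max 0 (max (-x 6 / 2) (x 2 - ρ)), le_max_left _ _,
      (le_max_left _ _).trans (le_max_right _ _), (le_max_right _ _).trans (le_max_right _ _),
      ?_, ?_, ?_, ?_⟩ <;> refine max_le ?_ (max_le ?_ ?_) <;> linarith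
  obtain ⟨σ, s0, s1, s2⟩ : ∃ σ : ℝ, 0 ≤ σ ∧ σ ≤ 1 ∧ x 2 - t = σ * ρ := by
    rcases hρ0.eq_or_lt with h0 | h0
    · exact ⟨0, le_rfl, zero_le_one, by linarith⟩
    · exact ⟨(x 2 - t) / ρ, div_nonneg (by linarith) hρ0, (div_le_one h0).mpr (by linarith),
        by field_simp⟩
  have s1' : 0 ≤ 1 - σ := by linarith
  let w : Fin 17 → ℝ := ![c0 * (1 - σ), c1 * (1 - σ), c2 * (1 - σ), c3 * (1 - σ), c4 * (1 - σ),
    c5 * (1 - σ), c0 * σ, c1 * σ, c2 * σ, c3 * σ, c4 * σ, c5 * σ, x 3 - t, x 4 - t, x 5 - t, t,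
    x 6 + 2 * t]
  have hx : x = ∑ k, w k • V k := by
    ext j
    simp only [WithLp.ofLp_sum, Finset.sum_apply, WithLp.ofLp_smul, Pi.smul_apply, smul_eq_mul, V]
    fin_cases j <;> simp [Fin.sum_univ_succ, w, Vz]
    · linear_combination -q1
    · linear_combination -q2
    · linear_combination s2 - σ * q0
    · ring
  rw [hx]
  refine convex_PP.sum_mem (fun k _ => ?_) ?_ (fun k _ => V_mem k)
  · fin_cases k <;> simp only [w] <;> simp <;> first | positivity | linarith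
  · simp [Fin.sum_univ_succ, w]
    linear_combination q0

def FF (i : Fin 17) : Set (E 7) := {x ∈ PP | (cz i : ℝ) + lin i x = 0}

lemma FF_exposed (i : Fin 17) : IsExposed ℝ PP (FF i) :=
  exposed_of_nonneg _ _ _ fun _ hx => g_nonneg i hx

lemma V_mem_FF (i k : Fin 17) : V k ∈ FF i ↔ val i k = 0 := by
  simp only [FF, Set.mem_ofPred_eq, g_V, V_mem, true_and]
  exact Int.cast_eq_zero

lemma FF_anti {i i' : Fin 17} (h : FF i ⊆ FF i') : i = i' := by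
  by_contra hne
  obtain ⟨k, h1, h2⟩ := val_anti i i' hne
  exact h2 ((V_mem_FF i' k).mp (h ((V_mem_FF i k).mpr h1)))

lemma V_inj {k k' : Fin 17} (h : V k = V k') : k = k' := by
  by_contra hne
  obtain ⟨i, h1, h2⟩ := val_sep k k' hne
  exact h2 ((V_mem_FF i k').mp (h ▸ (V_mem_FF i k).mpr h1))

lemma V_exposed (k : Fin 17) : IsExposed ℝ PP {V k} := by
  classical
  let S := Finset.univ.filter fun i => val i k = 0
  have e : ∀ x, (∑ i ∈ S, (cz i : ℝ)) + (∑ i ∈ S, lin i) x = ∑ i ∈ S, ((cz i : ℝ) + lin i x) := by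
    intro x; simp [Finset.sum_add_distrib]
  have hY := exposed_of_nonneg PP (∑ i ∈ S, lin i) (∑ i ∈ S, (cz i : ℝ)) fun x hx => by
    rw [e]; exact Finset.sum_nonneg fun i _ => g_nonneg i hx
  have hV : ∀ j, V j ∈ {x ∈ PP | (∑ i ∈ S, (cz i : ℝ)) + (∑ i ∈ S, lin i) x = 0} ↔ j = k := by
    intro j
    simp only [Set.mem_ofPred_eq, V_mem, true_and]
    rw [e, Finset.sum_eq_zero_iff_of_nonneg fun i _ => g_nonneg i (V_mem j)]
    constructor
    · intro h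
      by_contra hne
      obtain ⟨i, h1, h2⟩ := val_sep k j (Ne.symm hne)
      have := h i (by simp [S, h1])
      rw [g_V] at this
      exact h2 (by exact_mod_cast this)
    · rintro rfl i hi
      rw [g_V]; exact_mod_cast (Finset.mem_filter.mp hi).2
  convert hY using 1
  ext x
  constructor
  · rintro rfl; exact (hV k).mpr rfl
  · intro hx
    obtain ⟨w, h0, h1, rfl⟩ := weights hx.1
    have hz : ∀ j, j ≠ k → w j = 0 := fun j hj => by
      by_contra hc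
      exact hj ((hV j).mp (vert_mem hY w h0 h1 hx j hc))
    rw [Finset.sum_eq_single k (fun j _ hj => hz j hj) (by simp)] at h1
    rw [Finset.sum_eq_single k (fun j _ hj => by simp [hz j hj]) (by simp), h1]
    simp

lemma proper_sub {Y : Set (E 7)} (hY : IsExposed ℝ PP Y) (hne : Y ≠ PP) : ∃ i, Y ⊆ FF i := by
  by_contra hc
  push Not at hc
  have : ∀ i, ∃ x ∈ Y, 0 < (cz i : ℝ) + lin i x := by
    intro i
    obtain ⟨x, hx, hx'⟩ := Set.not_subset.mp (hc i)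
    exact ⟨x, hx, lt_of_le_of_ne (g_nonneg i (hY.subset hx)) fun h => hx' ⟨hY.subset hx, h.symm⟩⟩
  choose x hx hx' using this
  have hm : ∑ i, (1 / 17 : ℝ) • x i ∈ Y :=
    (hY.convex convex_PP).sum_mem (fun _ _ => by norm_num) (by simp) (fun i _ => hx i)
  set m := ∑ i, (1 / 17 : ℝ) • x i with hmdef
  have hpos : ∀ i, 0 < (cz i : ℝ) + lin i m := by
    intro i
    have : (cz i : ℝ) + lin i m = ∑ k, (1 / 17 : ℝ) * (cz i + lin i (x k)) := by
      simp only [hmdef, map_sum, map_smul, smul_eq_mul, mul_add, Finset.sum_add_distrib]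
      simp
    rw [this]
    exact Finset.sum_pos' (fun k _ => mul_nonneg (by norm_num) (g_nonneg i (hY.subset (hx k))))
      ⟨i, Finset.mem_univ _, mul_pos (by norm_num) (hx' i)⟩
  apply hne
  refine Set.Subset.antisymm hY.subset fun y hy => ?_
  have ev : ∀ᶠ ε : ℝ in 𝓝 0, ∀ i, 0 < (cz i : ℝ) + lin i (m + ε • (m - y)) := by
    rw [eventually_all]
    intro i
    refine ContinuousAt.eventually_lt (x₀ := (0 : ℝ)) (f := fun _ => (0 : ℝ))
      (g := fun ε => (cz i : ℝ) + lin i (m + ε • (m - y))) (by fun_prop) (by fun_prop) ?_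
    simpa using hpos i
  obtain ⟨ε, hε, hε0⟩ := ((ev.filter_mono nhdsWithin_le_nhds).and
    (self_mem_nhdsWithin (s := Set.Ioi (0 : ℝ)))).exists
  have hz := mem_PP fun i => (hε i).le
  have hε0 : 0 < ε := hε0
  refine face_seg hY hy hz (a := ε / (1 + ε)) (b := 1 / (1 + ε)) (by positivity) (by positivity)
    (by field_simp; ring) ?_
  convert hm using 1
  ext j
  simp
  field_simp
  ring

lemma FF_max (i : Fin 17) (F' : Set (E 7)) (hF : IsExposed ℝ PP F') (h : FF i ⊆ F') :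
    F' = FF i ∨ F' = PP := by
  by_cases hc : F' = PP
  · exact Or.inr hc
  · obtain ⟨j, hj⟩ := proper_sub hF hc
    have := FF_anti (h.trans hj)
    subst this
    exact Or.inl (Set.Subset.antisymm hj h)

lemma span_top (U : Submodule ℝ (E 7)) (k1 : Fin 17) (hk : k1 = 15 ∨ k1 = 16)
    (h : ∀ k, k ≠ k1 → V k - V 0 ∈ U) : U = ⊤ := by
  have h16 : V 16 - V 0 ∈ U := by
    rcases hk with rfl | rfl
    · exact h 16 (by decide)
    · have : V 16 - V 0 = (1 / 2 : ℝ) • ((V 12 - V 0) + (V 13 - V 0) + (V 14 - V 0) +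
          (V 6 - V 0) - (V 15 - V 0)) := by
        ext j; fin_cases j <;> simp [V, Vz] <;> norm_num
      rw [this]
      exact U.smul_mem _ (U.sub_mem (U.add_mem (U.add_mem (U.add_mem (h 12 (by decide))
        (h 13 (by decide))) (h 14 (by decide))) (h 6 (by decide))) (h 15 (by decide)))
  have a : ∀ k : Fin 17, k.val < 15 → V k - V 0 ∈ U := fun k hk' =>
    h k (by rcases hk with rfl | rfl <;> intro hc <;> subst hc <;> exact absurd hk' (by decide))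
  rw [eq_top_iff]
  intro x _
  have : x = (-(x 0 + x 3 + x 4 + x 5 + x 6) / 2) • (V 3 - V 0) + x 1 • (V 1 - V 0) +
      x 2 • (V 6 - V 0) + x 3 • (V 12 - V 0) + x 4 • (V 13 - V 0) + x 5 • (V 14 - V 0) +
      x 6 • (V 16 - V 0) := by
    ext j; fin_cases j <;> simp [V, Vz]
    ring
  rw [this]
  refine U.add_mem (U.add_mem (U.add_mem (U.add_mem (U.add_mem (U.add_mem ?_ ?_) ?_) ?_) ?_) ?_)
    (U.smul_mem _ h16) <;> exact U.smul_mem _ (a _ (by decide))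

lemma vspan_top : vectorSpan ℝ PP = ⊤ :=
  span_top _ 15 (Or.inl rfl) fun k _ => vsub_mem_vectorSpan ℝ (V_mem k) (V_mem 0)

lemma dim_PP : finrank ℝ (vectorSpan ℝ PP) = 7 := by rw [vspan_top]; simp

lemma dim_FF_lt (i : Fin 17) : finrank ℝ (vectorSpan ℝ (FF i)) < 7 := by
  have : vectorSpan ℝ (FF i) ≠ ⊤ := by
    intro h
    have hk : vectorSpan ℝ (FF i) ≤ LinearMap.ker (lin i : E 7 →ₗ[ℝ] ℝ) := by
      rw [vectorSpan_def, Submodule.span_le]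
      rintro _ ⟨x, hx, y, hy, rfl⟩
      simp only [vsub_eq_sub, SetLike.mem_coe, LinearMap.mem_ker, ContinuousLinearMap.coe_coe,
        map_sub]
      linarith [hx.2, hy.2]
    obtain ⟨k, hk1⟩ := val_ne i
    obtain ⟨k', hk2, -⟩ := val_anti i (i + 1) ((by decide : ∀ i : Fin 17, i ≠ i + 1) i)
    have := hk (h ▸ Submodule.mem_top (x := V k - V k'))
    simp only [LinearMap.mem_ker, ContinuousLinearMap.coe_coe, map_sub] at this
    have a1 := g_V i k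
    have a2 := g_V i k'
    rw [hk2] at a2
    apply hk1
    have : (val i k : ℝ) = 0 := by push_cast at a2; linarith
    exact_mod_cast this
  simpa using Submodule.finrank_lt this

lemma dim_FF (i : Fin 17) (hi : i.val < 6) : finrank ℝ (vectorSpan ℝ (FF i)) = 6 := by
  obtain ⟨k0, k1, hk, h⟩ := val_miss i hi
  have h0 : V 0 ∈ FF i := (V_mem_FF i 0).mpr (val_low i 0 hi (by decide))
  have := span_top (vectorSpan ℝ (FF i) ⊔ Submodule.span ℝ {V k0 - V 0}) k1 hk fun k hk1 => by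
    by_cases hk0 : k = k0
    · subst hk0; exact Submodule.mem_sup_right (Submodule.mem_span_singleton_self _)
    · exact Submodule.mem_sup_left (vsub_mem_vectorSpan ℝ ((V_mem_FF i k).mpr (h k hk0 hk1)) h0)
  have a1 := Submodule.finrank_add_le_finrank_add_finrank (vectorSpan ℝ (FF i))
    (Submodule.span ℝ {V k0 - V 0})
  have a2 : finrank ℝ (Submodule.span ℝ {V k0 - V 0}) ≤ 1 := by
    simpa using finrank_span_le_card ({V k0 - V 0} : Set (E 7))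
  rw [this] at a1
  simp only [finrank_top, finrank_euclideanSpace, Fintype.card_fin] at a1
  have := dim_FF_lt i
  omega

lemma facet_eq {G : Set (E 7)} (hG : IsExposed ℝ PP G) (hne : G.Nonempty)
    (hd : finrank ℝ (vectorSpan ℝ G) = 6) : ∃ i, G = FF i := by
  have : G ≠ PP := by
    rintro rfl
    rw [dim_PP] at hd; omega
  obtain ⟨i, hi⟩ := proper_sub hG this
  refine ⟨i, Set.Subset.antisymm hi fun x hx => ?_⟩
  have e : vectorSpan ℝ G = vectorSpan ℝ (FF i) :=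
    Submodule.eq_of_le_of_finrank_le (vectorSpan_mono ℝ hi) (by have := dim_FF_lt i; omega)
  obtain ⟨g, hg⟩ := hne
  obtain ⟨l, hl⟩ := hG ⟨g, hg⟩
  have hmem : ∀ x, x ∈ G ↔ x ∈ PP ∧ ∀ y ∈ PP, l y ≤ l x := fun x => by rw [hl]; rfl
  have hk : vectorSpan ℝ G ≤ LinearMap.ker (l : E 7 →ₗ[ℝ] ℝ) := by
    rw [vectorSpan_def, Submodule.span_le]
    rintro _ ⟨x, hx, y, hy, rfl⟩
    simp only [vsub_eq_sub, SetLike.mem_coe, LinearMap.mem_ker, ContinuousLinearMap.coe_coe,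
      map_sub]
    linarith [((hmem x).mp hx).2 y ((hmem y).mp hy).1, ((hmem y).mp hy).2 x ((hmem x).mp hx).1]
  have := hk (e ▸ vsub_mem_vectorSpan ℝ hx (hi hg))
  simp only [vsub_eq_sub, LinearMap.mem_ker, ContinuousLinearMap.coe_coe, map_sub] at this
  exact (hmem x).mpr ⟨hx.1, fun y hy => by linarith [((hmem g).mp hg).2 y hy]⟩

lemma no_split (A B : Set (E 7)) (hA : IsExposed ℝ PP A) (hB : IsExposed ℝ PP B)
    (a : A.Nonempty) (b : B.Nonempty) (h1 : ∀ v, IsExposed ℝ PP {v} → (v ∈ A ↔ v ∉ B))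
    (h2 : ∀ F, IsExposed ℝ PP F → (∀ F', IsExposed ℝ PP F' → F ⊆ F' → F' = F ∨ F' = PP) →
        A ⊆ F ∨ B ⊆ F) : False := by
  have key : ∀ i j j', val i j ≠ 0 → val i j' ≠ 0 → (V j ∈ A ↔ V j' ∈ A) := by
    intro i j j' hj hj'
    rw [Ne, ← V_mem_FF] at hj hj'
    rcases h2 _ (FF_exposed i) (FF_max i) with h | h
    · exact iff_of_false (fun c => hj (h c)) (fun c => hj' (h c))
    · exact iff_of_true ((h1 _ (V_exposed j)).mpr fun c => hj (h c))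
        ((h1 _ (V_exposed j')).mpr fun c => hj' (h c))
  have all : ∀ j, V 0 ∈ A ↔ V j ∈ A := by
    intro j
    obtain ⟨m, ⟨i, a1, a2⟩, ⟨i', a3, a4⟩⟩ := val_conn j
    exact (key i 0 m a1 a2).trans (key i' m j a3 a4)
  obtain ⟨k, hk⟩ := face_has_vertex hA a
  obtain ⟨k', hk'⟩ := face_has_vertex hB b
  exact (h1 _ (V_exposed k')).mp ((all k').mp ((all k).mpr hk)) hk'

end Pool.Agent.H.MP_7ca032_co
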